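import Pool.Agent.Q31.GC.Count

/-!
# The gcd recursion with `n ^ p - 1`: the zeros are sparser than the primes

Let `n < n'` be consecutive zeros. Between them `a` descends from `(n+1)^p - 1` to `0` by the jumps
`g(k) = gcd(a(k-1), k^p - 1)`. If `c` is the cofactor `(i^p - 1)/g(i)` of a jump, then `c a(i)` is a
multiple `q (i^p - 1)`, `1 ≤ q < c`, and every later `g(k)` divides
`q (k^p - i^p) + c (a(i) - a(k-1))`, which is positive. Hence `g(k) ≤ (1 + c)^(k-i) W`,
`W = n'^p - (n+1)^p`: after a jump of a fixed share of the whole height there is no large jump for a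
time of order `log n`, and the sizes of the large jumps add up in such a way that the whole descent
needs a time of order `log n log log n`.
-/

set_option autoImplicit false

open Filter Topology

namespace Pool.Agent.Results.MP_e7655a_nt.SparseZeros

/-- the zeros `n`, `1 ≤ n ≤ N`, of the sequence `a` -/
def zeros (a : ℕ → ℤ) (N : ℕ) : Finset ℕ := (Finset.Icc 1 N).filter (fun n => a n = 0)

/-- **The zeros are sparse.** For every prime `p` and the sequence `a = a_p` of the problem:
(1) for some `n₀`, any two zeros `n < n'` with `n' ≥ n₀` (in particular consecutive ones) satisfy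
`n' - n ≥ (1/8) log n' log log n'`; (2) for all large `N` there are at most
`33 N / (log N log log N)` zeros up to `N`; (3) the number of zeros up to `N`, divided by the number
of primes up to `N`, tends to `0`. -/
theorem result (p : ℕ) (hp : p.Prime) (a : ℕ → ℤ) (ha1 : a 1 = 1)
    (ha : ∀ n : ℕ, 2 ≤ n →
      a n = |a (n - 1) - ((Int.gcd (a (n - 1)) ((n : ℤ) ^ p - 1) : ℕ) : ℤ)|) :
    (∃ n₀ : ℕ, ∀ n n' : ℕ, 1 ≤ n → n < n' → n₀ ≤ n' → a n = 0 → a n' = 0 →
      1 / 8 * (Real.log n' * Real.log (Real.log n')) ≤ (n' : ℝ) - n) ∧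
    (∀ᶠ N : ℕ in atTop,
      ((zeros a N).card : ℝ) ≤ 33 * (N / (Real.log N * Real.log (Real.log N)))) ∧
    Tendsto (fun N : ℕ => ((zeros a N).card : ℝ) / (Nat.primeCounting N : ℝ)) atTop (𝓝 0) := by
  obtain ⟨n₀, h⟩ := Pool.Agent.Q31.GC.gap hp.one_le
  have h1 := h a ha1 ha
  have h2 := Pool.Agent.Q31.GC.count h1
  exact ⟨⟨n₀, h1⟩, h2, Pool.Agent.Q31.GC.ratio h2⟩

end Pool.Agent.Results.MP_e7655a_nt.SparseZeros
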