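import Mathlib

namespace Pool.Agent.Results.MP_e7655a_nt.ZerosAfterRuns

/-- The sequence: `a p 1 = 1` and `a p n = |a p (n-1) - gcd (a p (n-1)) (n^p - 1)|` for `n ≥ 2`. -/
def a (p : ℕ) : ℕ → ℕ
  | 0 => 0
  | 1 => 1
  | (n + 2) => ((a p (n + 1) : ℤ) - (Nat.gcd (a p (n + 1)) ((n + 2) ^ p - 1) : ℤ)).natAbs

/-- `q_p(n) = ((n+1)^p - 1)/n`. -/
def q (p n : ℕ) : ℕ := ((n + 1) ^ p - 1) / n

/-- No gcd bigger than 1 is subtracted at the `s` indices `n-s+1, ..., n`. -/
def Quiet (p s n : ℕ) : Prop :=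
  ∀ k, n < k + s → k ≤ n → Nat.gcd (a p (k - 1)) (k ^ p - 1) = 1

theorem a_zero_step (p n : ℕ) (hn : 1 ≤ n) (h : a p n = 0) : a p (n + 1) = (n + 1) ^ p - 1 := by
  obtain ⟨m, rfl⟩ : ∃ m, n = m + 1 := ⟨n - 1, by omega⟩
  show ((a p (m + 1) : ℤ) - (Nat.gcd (a p (m + 1)) ((m + 2) ^ p - 1) : ℤ)).natAbs = _
  rw [h, Nat.gcd_zero_left, Nat.cast_zero, zero_sub, Int.natAbs_neg, Int.natAbs_natCast]

theorem a_step (p n : ℕ) (hn : 1 ≤ n) (h : 0 < a p n) :
    a p (n + 1) + Nat.gcd (a p n) ((n + 1) ^ p - 1) = a p n := by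
  obtain ⟨m, rfl⟩ : ∃ m, n = m + 1 := ⟨n - 1, by omega⟩
  have hle : Nat.gcd (a p (m + 1)) ((m + 2) ^ p - 1) ≤ a p (m + 1) :=
    Nat.gcd_le_left _ h
  show ((a p (m + 1) : ℤ) - (Nat.gcd (a p (m + 1)) ((m + 2) ^ p - 1) : ℤ)).natAbs + _ = _
  show ((a p (m + 1) : ℤ) - (Nat.gcd (a p (m + 1)) ((m + 2) ^ p - 1) : ℤ)).natAbs
    + Nat.gcd (a p (m + 1)) ((m + 2) ^ p - 1) = _
  omega

theorem mul_q (p n : ℕ) (_hn : 1 ≤ n) : n * q p n = (n + 1) ^ p - 1 := by
  have h : n ∣ (n + 1) ^ p - 1 := by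
    have := Nat.sub_dvd_pow_sub_pow (n + 1) 1 p
    simpa using this
  exact Nat.mul_div_cancel' h

theorem dvd_iff (p d x y : ℕ) (h : x ≡ y [MOD d]) (hx : 1 ≤ x) (hy : 1 ≤ y) :
    d ∣ x ^ p - 1 ↔ d ∣ y ^ p - 1 := by
  rw [← Nat.modEq_iff_dvd' (Nat.one_le_pow _ _ hx), ← Nat.modEq_iff_dvd' (Nat.one_le_pow _ _ hy)]
  constructor
  · intro h1; exact h1.trans (h.pow p)
  · intro h1; exact h1.trans (h.pow p).symm

/-- transport of the gcd to the predicted zero -/
theorem gcd_eq (p k b : ℕ) :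
    Nat.gcd b ((k + 1) ^ p - 1) = Nat.gcd b ((k + b + 1) ^ p - 1) := by
  apply Nat.dvd_antisymm
  · apply Nat.dvd_gcd (Nat.gcd_dvd_left _ _)
    have hd : Nat.gcd b ((k + 1) ^ p - 1) ∣ b := Nat.gcd_dvd_left _ _
    have h2 : Nat.gcd b ((k + 1) ^ p - 1) ∣ (k + 1) ^ p - 1 := Nat.gcd_dvd_right _ _
    refine (dvd_iff p _ (k + 1) (k + b + 1) ?_ (by omega) (by omega)).1 h2
    rw [Nat.modEq_iff_dvd' (by omega)]
    have : k + b + 1 - (k + 1) = b := by omega
    rw [this]; exact hd
  · apply Nat.dvd_gcd (Nat.gcd_dvd_left _ _)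
    have hd : Nat.gcd b ((k + b + 1) ^ p - 1) ∣ b := Nat.gcd_dvd_left _ _
    have h2 : Nat.gcd b ((k + b + 1) ^ p - 1) ∣ (k + b + 1) ^ p - 1 := Nat.gcd_dvd_right _ _
    refine (dvd_iff p _ (k + 1) (k + b + 1) ?_ (by omega) (by omega)).2 h2
    rw [Nat.modEq_iff_dvd' (by omega)]
    have : k + b + 1 - (k + 1) = b := by omega
    rw [this]; exact hd

/-- forward: if all prime factors are large then the run goes through to `n`. -/
theorem run_of (p n s : ℕ) (hs : s < n) (h0 : a p (n - s) = s)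
    (H : ∀ r, r.Prime → r ∣ n * q p n → s < r) :
    ∀ i, i ≤ s → a p (n - s + i) = s - i := by
  intro i
  induction i with
  | zero => intro _; simpa using h0
  | succ i ih =>
    intro hi
    have h1 := ih (by omega)
    have hpos : 0 < a p (n - s + i) := by omega
    have h2 := a_step p (n - s + i) (by omega) hpos
    have h3 : Nat.gcd (a p (n - s + i)) ((n - s + i + 1) ^ p - 1) = 1 := by
      by_contra hne
      obtain ⟨r, hr, hrd⟩ := Nat.exists_prime_and_dvd hne
      rw [gcd_eq, h1] at hrd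
      have h4 : n - s + i + (s - i) + 1 = n + 1 := by omega
      rw [h4] at hrd
      have h5 : r ∣ s - i := hrd.trans (Nat.gcd_dvd_left _ _)
      have h6 : r ∣ n * q p n := by
        rw [mul_q p n (by omega)]; exact hrd.trans (Nat.gcd_dvd_right _ _)
      have h7 := H r hr h6
      have h8 := Nat.le_of_dvd (by omega) h5
      omega
    rw [h3] at h2
    have : n - s + (i + 1) = n - s + i + 1 := by omega
    rw [this]
    omega

/-- backward: a quiet stretch before a zero is a run. -/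
theorem back (p : ℕ) (hp : 2 ≤ p) (n s : ℕ) (hs : s < n) (hz : a p n = 0) (hq : Quiet p s n) :
    ∀ i, i ≤ s → a p (n - i) = i := by
  intro i
  induction i with
  | zero => intro _; simpa using hz
  | succ i ih =>
    intro hi
    have h1 := ih (by omega)
    have h2 := hq (n - i) (by omega) (by omega)
    obtain ⟨m, hm⟩ : ∃ m, n - i = m + 1 := ⟨n - i - 1, by omega⟩
    have hm1 : 1 ≤ m := by omega
    have h3 : n - (i + 1) = m := by omega
    rw [h3]
    rw [hm, Nat.add_sub_cancel] at h2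
    rw [hm] at h1
    rcases Nat.eq_zero_or_pos (a p m) with h4 | h4
    · rw [h4, Nat.gcd_zero_left] at h2
      exfalso
      have : 2 ^ 2 ≤ (m + 1) ^ p :=
        (Nat.pow_le_pow_left (by omega) 2).trans (Nat.pow_le_pow_right (by omega) hp)
      omega
    · have h5 := a_step p m hm1 h4
      omega

theorem quiet_of_run (p n s : ℕ) (hs : s < n) (h : ∀ i, i ≤ s → a p (n - i) = i) :
    Quiet p s n := by
  intro k hk hkn
  obtain ⟨i, hi⟩ : ∃ i, k = n - i := ⟨n - k, by omega⟩
  have hi' : i < s := by omega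
  have h1 := h i (by omega)
  have h2 := h (i + 1) (by omega)
  obtain ⟨m, hm⟩ : ∃ m, n - i = m + 1 := ⟨n - i - 1, by omega⟩
  have h3 : n - (i + 1) = m := by omega
  rw [h3] at h2
  rw [hm] at h1
  have h5 := a_step p m (by omega) (by omega)
  rw [hi, hm, Nat.add_sub_cancel]
  omega

/-- in a run every prime factor of `n q_p(n)` exceeds the length of the run. -/
theorem prime_gt (p n s : ℕ) (hs : s < n) (h : ∀ i, i ≤ s → a p (n - i) = i) (r : ℕ)
    (hr : r.Prime) (hd : r ∣ n * q p n) : s < r := by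
  by_contra hcon
  rw [not_lt] at hcon
  have h1 := h r hcon
  have h2 := h (r - 1) (by omega)
  have hr2 := hr.two_le
  obtain ⟨m, hm⟩ : ∃ m, n - r = m := ⟨_, rfl⟩
  have h3 : n - (r - 1) = m + 1 := by omega
  rw [hm] at h1
  rw [h3] at h2
  have h5 := a_step p m (by omega) (by omega)
  rw [gcd_eq, h1] at h5
  have h6 : m + r + 1 = n + 1 := by omega
  rw [h6, ← mul_q p n (by omega), Nat.gcd_eq_left hd] at h5
  omega

theorem main_iff (p : ℕ) (hp : 2 ≤ p) (n s : ℕ) (hs : s < n) :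
    (a p n = 0 ∧ Quiet p s n) ↔ (a p (n - s) = s ∧ ∀ r, r.Prime → r ∣ n * q p n → s < r) := by
  constructor
  · rintro ⟨hz, hq⟩
    have h := back p hp n s hs hz hq
    exact ⟨h s le_rfl, fun r hr hd => prime_gt p n s hs h r hr hd⟩
  · rintro ⟨h0, H⟩
    have h := run_of p n s hs h0 H
    have h' : ∀ i, i ≤ s → a p (n - i) = i := by
      intro i hi
      have := h (s - i) (by omega)
      have e : n - s + (s - i) = n - i := by omega
      rw [e] at this
      omega
    exact ⟨by simpa using h' 0 (by omega), quiet_of_run p n s hs h'⟩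

theorem a_two (p : ℕ) : a p 2 = 0 := by
  show ((a p 1 : ℤ) - (Nat.gcd (a p 1) (2 ^ p - 1) : ℤ)).natAbs = 0
  have : a p 1 = 1 := rfl
  rw [this]
  simp

theorem odd_sum (p : ℕ) (hp : 2 ≤ p) : ∀ x, 3 ≤ x → Odd (x + a p x) := by
  intro x hx
  induction x, hx using Nat.le_induction with
  | base =>
    rw [a_zero_step p 2 (by norm_num) (a_two p)]
    have h1 : Odd ((2 + 1) ^ p) := Odd.pow (by decide)
    have h2 : 1 ≤ (2 + 1) ^ p := Nat.one_le_pow _ _ (by norm_num)
    obtain ⟨t, ht⟩ := h1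
    exact ⟨t + 1, by omega⟩
  | succ x hx ih =>
    rcases Nat.eq_zero_or_pos (a p x) with h | h
    · rw [a_zero_step p x (by omega) h]
      rw [h, Nat.add_zero] at ih
      have h1 : Even ((x + 1) ^ p) := (Odd.add_one ih).pow_of_ne_zero (by omega)
      have h2 : 1 ≤ (x + 1) ^ p := Nat.one_le_pow _ _ (by omega)
      obtain ⟨t, ht⟩ := h1
      obtain ⟨u, hu⟩ := ih
      exact ⟨u + t, by omega⟩
    · have h5 := a_step p x (by omega) h
      rw [gcd_eq] at h5
      have h6 : Odd ((x + a p x + 1) ^ p - 1) := by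
        have h7 : Even ((x + a p x + 1) ^ p) := (Odd.add_one ih).pow_of_ne_zero (by omega)
        have h8 : 1 ≤ (x + a p x + 1) ^ p := Nat.one_le_pow _ _ (by omega)
        obtain ⟨t, ht⟩ := h7
        exact ⟨t - 1, by omega⟩
      have h9 : Odd (Nat.gcd (a p x) ((x + a p x + 1) ^ p - 1)) :=
        Odd.of_dvd_nat h6 (Nat.gcd_dvd_right _ _)
      obtain ⟨u, hu⟩ := h9
      obtain ⟨v, hv⟩ := ih
      rw [hu] at h5
      exact ⟨v - u, by omega⟩

theorem zero_odd (p : ℕ) (hp : 2 ≤ p) (n : ℕ) (hn : 2 < n) (hz : a p n = 0) :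
    Odd (n * q p n) := by
  have h := odd_sum p hp n hn
  rw [hz, Nat.add_zero] at h
  rw [mul_q p n (by omega)]
  have h1 : Even ((n + 1) ^ p) := (Odd.add_one h).pow_of_ne_zero (by omega)
  have h2 : 1 ≤ (n + 1) ^ p := Nat.one_le_pow _ _ (by omega)
  obtain ⟨t, ht⟩ := h1
  exact ⟨t - 1, by omega⟩

theorem pow_ge (p n c : ℕ) (hp : 2 ≤ p) (h : c ≤ n) : c ^ 2 ≤ n ^ p := by
  rcases Nat.eq_zero_or_pos n with h0 | h0
  · subst h0
    have : c = 0 := by omega
    subst this; simp
  · exact (Nat.pow_le_pow_left h 2).trans (Nat.pow_le_pow_right h0 hp)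

theorem zero_six (p : ℕ) (hp : 2 ≤ p) (n : ℕ) (hn : 2 < n) (hz : a p n = 0)
    (h1 : a p (n - 1) = 1) : Nat.Coprime (n * q p n) 6 := by
  have hn3 : n ≠ 3 := by
    rintro rfl
    rw [a_zero_step p 2 (by norm_num) (a_two p)] at hz
    have := pow_ge p 3 3 hp le_rfl
    norm_num at this hz
    omega
  -- a (n-2) = 2
  obtain ⟨m, rfl⟩ : ∃ m, n = m + 4 := ⟨n - 4, by omega⟩
  have e1 : m + 4 - 1 = m + 2 + 1 := by omega
  rw [e1] at h1
  have h2 : a p (m + 2) = 2 := by
    rcases Nat.eq_zero_or_pos (a p (m + 2)) with h | h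
    · rw [a_zero_step p (m + 2) (by omega) h] at h1
      have := pow_ge p (m + 2 + 1) 3 hp (by omega)
      omega
    · have h5 := a_step p (m + 2) (by omega) h
      have h6 : Nat.gcd (a p (m + 2)) ((m + 2 + 1) ^ p - 1) ∣ a p (m + 2) := Nat.gcd_dvd_left _ _
      rw [h1] at h5
      have h7 : Nat.gcd (a p (m + 2)) ((m + 2 + 1) ^ p - 1) ∣ 1 := by
        have h8 : Nat.gcd (a p (m + 2)) ((m + 2 + 1) ^ p - 1) ∣
            1 + Nat.gcd (a p (m + 2)) ((m + 2 + 1) ^ p - 1) := by rw [h5]; exact h6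
        exact (Nat.dvd_add_left dvd_rfl).1 h8
      have h9 := Nat.le_of_dvd one_pos h7
      have h10 : 0 < Nat.gcd (a p (m + 2)) ((m + 2 + 1) ^ p - 1) := Nat.gcd_pos_of_pos_left _ h
      omega
  have h3 : a p (m + 1) = 3 := by
    rcases Nat.eq_zero_or_pos (a p (m + 1)) with h | h
    · rw [a_zero_step p (m + 1) (by omega) h] at h2
      have h6 := pow_ge p (m + 1 + 1) 2 hp (by omega)
      omega
    · have h5 := a_step p (m + 1) (by omega) h
      have h6 : Nat.gcd (a p (m + 1)) ((m + 1 + 1) ^ p - 1) ∣ a p (m + 1) := Nat.gcd_dvd_left _ _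
      rw [h2] at h5
      have h7 : Nat.gcd (a p (m + 1)) ((m + 1 + 1) ^ p - 1) ∣ 2 := by
        have h8 : Nat.gcd (a p (m + 1)) ((m + 1 + 1) ^ p - 1) ∣
            2 + Nat.gcd (a p (m + 1)) ((m + 1 + 1) ^ p - 1) := by rw [h5]; exact h6
        exact (Nat.dvd_add_left dvd_rfl).1 h8
      have h9 := Nat.le_of_dvd two_pos h7
      have h10 : 0 < Nat.gcd (a p (m + 1)) ((m + 1 + 1) ^ p - 1) := Nat.gcd_pos_of_pos_left _ h
      -- the gcd is odd
      have h11 : a p (m + 1) ≠ 4 := by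
        intro h4
        have h14 := odd_sum p hp (m + 4) (by omega)
        rw [hz, Nat.add_zero] at h14
        have h12 : 2 ≤ m := by
          rcases Nat.lt_or_ge m 2 with hm | hm
          · exfalso
            interval_cases m
            · have : a p (0 + 1) = 1 := rfl
              omega
            · have : a p (1 + 1) = 0 := a_two p
              omega
          · exact hm
        have h13 := odd_sum p hp (m + 1) (by omega)
        rw [h4] at h13
        obtain ⟨u, hu⟩ := h13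
        obtain ⟨v, hv⟩ := h14
        omega
      omega
  have hrun : ∀ i, i ≤ 3 → a p (m + 4 - i) = i := by
    intro i hi
    interval_cases i
    · exact hz
    · exact h1
    · exact h2
    · exact h3
  have hp2 : ¬ 2 ∣ (m + 4) * q p (m + 4) := fun hd => by
    have := prime_gt p (m + 4) 3 (by omega) hrun 2 Nat.prime_two hd
    omega
  have hp3 : ¬ 3 ∣ (m + 4) * q p (m + 4) := fun hd => by
    have := prime_gt p (m + 4) 3 (by omega) hrun 3 Nat.prime_three hd
    omega
  have c2 : Nat.Coprime ((m + 4) * q p (m + 4)) 2 :=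
    ((Nat.Prime.coprime_iff_not_dvd Nat.prime_two).2 hp2).symm
  have c3 : Nat.Coprime ((m + 4) * q p (m + 4)) 3 :=
    ((Nat.Prime.coprime_iff_not_dvd Nat.prime_three).2 hp3).symm
  exact Nat.Coprime.mul_right (k := (m + 4) * q p (m + 4)) (m := 2) (n := 3) c2 c3

/-- primality from a long run. -/
theorem prime_of_sq (N x s : ℕ) (hx : 2 ≤ x) (hd : x ∣ N)
    (H : ∀ r, r.Prime → r ∣ N → s < r) (h : x ≤ s ^ 2) : x.Prime := by
  by_contra hne
  have h1 := Nat.minFac_sq_le_self (by omega) hne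
  have h2 := H x.minFac (Nat.minFac_prime (by omega)) ((Nat.minFac_dvd x).trans hd)
  have h3 : s ^ 2 < x.minFac ^ 2 := Nat.pow_lt_pow_left h2 (by norm_num)
  omega

theorem factors_card (x s : ℕ) (hx : x ≠ 0) (H : ∀ r, r.Prime → r ∣ x → s < r) :
    (s + 1) ^ x.primeFactorsList.length ≤ x := by
  conv_rhs => rw [← Nat.prod_primeFactorsList hx]
  apply List.pow_card_le_prod
  intro r hr
  exact H r (Nat.prime_of_mem_primeFactorsList hr) (Nat.dvd_of_mem_primeFactorsList hr)

theorem q_two (n : ℕ) (hn : 1 ≤ n) : q 2 n = n + 2 := by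
  have h := mul_q 2 n hn
  have h2 : (n + 1) ^ 2 - 1 = n * (n + 2) := by
    have : (n + 1) ^ 2 = n * (n + 2) + 1 := by ring
    omega
  rw [h2] at h
  exact Nat.eq_of_mul_eq_mul_left (by omega) h

theorem q_three (n : ℕ) (hn : 1 ≤ n) : q 3 n = n ^ 2 + 3 * n + 3 := by
  have h := mul_q 3 n hn
  have h2 : (n + 1) ^ 3 - 1 = n * (n ^ 2 + 3 * n + 3) := by
    have : (n + 1) ^ 3 = n * (n ^ 2 + 3 * n + 3) + 1 := by ring
    omega
  rw [h2] at h
  exact Nat.eq_of_mul_eq_mul_left (by omega) h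

theorem cubic_prime (n s : ℕ) (hs : s < n) (h : (n - s + 1) ^ 2 ≤ n)
    (H : ∀ r, r.Prime → r ∣ n ^ 2 + 3 * n + 3 → s < r) : (n ^ 2 + 3 * n + 3).Prime := by
  by_contra hne
  set x := n ^ 2 + 3 * n + 3 with hxd
  have hx2 : 2 ≤ x := by omega
  have h1 := Nat.minFac_sq_le_self (by omega) hne
  have hr := Nat.minFac_prime (n := x) (by omega)
  have h2 := H x.minFac hr (Nat.minFac_dvd x)
  have hd := Nat.minFac_dvd x
  set r := x.minFac with hrd
  have h3 : r < n + 2 := by
    by_contra hc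
    have : (n + 2) ^ 2 ≤ r ^ 2 := Nat.pow_le_pow_left (by omega) 2
    nlinarith
  have hr2 := hr.two_le
  rcases Nat.lt_or_ge n r with h4 | h4
  · -- r = n + 1
    have h5 : r = n + 1 := by omega
    have h6 : x = (n + 1) * (n + 2) + 1 := by rw [hxd]; ring
    rw [h6, h5] at hd
    have h7 : n + 1 ∣ 1 := (Nat.dvd_add_right (Dvd.intro _ rfl)).1 hd
    have := Nat.le_of_dvd one_pos h7
    omega
  · obtain ⟨u, hu⟩ : ∃ u, n = r + u := ⟨n - r, by omega⟩
    have h6 : x = r * (r + 2 * u + 3) + (u ^ 2 + 3 * u + 3) := by rw [hxd, hu]; ring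
    have h7 : r ∣ u ^ 2 + 3 * u + 3 := by
      rw [h6] at hd
      exact (Nat.dvd_add_right (Dvd.intro _ rfl)).1 hd
    have h8 := Nat.le_of_dvd (by omega) h7
    obtain ⟨k, hk⟩ : ∃ k, n = s + k := ⟨n - s, by omega⟩
    have hk1 : n - s = k := by omega
    rw [hk1] at h
    have h9 : u + 1 ≤ k := by omega
    obtain ⟨v, rfl⟩ : ∃ v, k = u + 1 + v := ⟨k - (u + 1), by omega⟩
    nlinarith

/-- `n` is the first zero after the index `m`. -/
def NextZero (p m n : ℕ) : Prop := m < n ∧ a p n = 0 ∧ ∀ j, m < j → j < n → 0 < a p j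

theorem le_of_next (p m n : ℕ) (hm : 1 ≤ m) (hz : a p m = 0) (h : NextZero p m n) :
    ∀ i, m + 1 + i ≤ n → m + 1 + i + a p (m + 1 + i) ≤ m + (m + 1) ^ p := by
  obtain ⟨h1, h2, h3⟩ := h
  intro i
  induction i with
  | zero =>
    intro _
    rw [Nat.add_zero, a_zero_step p m hm hz]
    have := Nat.one_le_pow p (m + 1) (by omega)
    omega
  | succ i ih =>
    intro hi
    have h4 := ih (by omega)
    have hpos := h3 (m + 1 + i) (by omega) (by omega)
    have h5 := a_step p (m + 1 + i) (by omega) hpos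
    have h6 : 0 < Nat.gcd (a p (m + 1 + i)) ((m + 1 + i + 1) ^ p - 1) :=
      Nat.gcd_pos_of_pos_left _ hpos
    have e : m + 1 + (i + 1) = m + 1 + i + 1 := by omega
    rw [e]
    omega

/-- The zero following `m` is the largest possible one iff all prime factors are large. -/
theorem next_iff (p : ℕ) (hp : 2 ≤ p) (m : ℕ) (hm : 1 ≤ m) (hz : a p m = 0) :
    NextZero p m (m + (m + 1) ^ p) ↔
      ∀ r, r.Prime → r ∣ (m + (m + 1) ^ p) * q p (m + (m + 1) ^ p) → (m + 1) ^ p - 1 < r := by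
  have hpow : 2 ^ 2 ≤ (m + 1) ^ p := pow_ge p (m + 1) 2 hp (by omega)
  set n := m + (m + 1) ^ p with hn
  set s := (m + 1) ^ p - 1 with hs
  have hns : n - s = m + 1 := by omega
  have hsn : s < n := by omega
  have h0 : a p (n - s) = s := by rw [hns, a_zero_step p m hm hz]
  have hiff := main_iff p hp n s hsn
  constructor
  · intro h
    -- every term from m+1 to n is exactly n - j
    have key : ∀ i, m + 1 + i ≤ n → a p (m + 1 + i) = s - i := by
      -- downward: a p j ≥ n - j because each step before the zero decreases by at least one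
      have low : ∀ i, i ≤ s → i ≤ a p (n - i) := by
        intro i
        induction i with
        | zero => intro _; exact Nat.zero_le _
        | succ i ih =>
          intro hi
          have h4 := ih (by omega)
          have hpos := h.2.2 (n - (i + 1)) (by omega) (by omega)
          have h5 := a_step p (n - (i + 1)) (by omega) hpos
          have h6 : 0 < Nat.gcd (a p (n - (i + 1))) ((n - (i + 1) + 1) ^ p - 1) :=
            Nat.gcd_pos_of_pos_left _ hpos
          have e : n - (i + 1) + 1 = n - i := by omega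
          rw [e] at h5 h6
          omega
      intro i hi
      have h7 := le_of_next p m n hm hz h i hi
      have h8 := low (s - i) (by omega)
      have e : n - (s - i) = m + 1 + i := by omega
      rw [e] at h8
      omega
    have hrun : ∀ i, i ≤ s → a p (n - i) = i := by
      intro i hi
      have h9 := key (s - i) (by omega)
      have e : m + 1 + (s - i) = n - i := by omega
      rw [e] at h9
      omega
    intro r hr hd
    exact prime_gt p n s hsn hrun r hr hd
  · intro H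
    have hrun := run_of p n s hsn h0 H
    refine ⟨by omega, (hiff.2 ⟨h0, H⟩).1, ?_⟩
    intro j hj1 hj2
    have := hrun (j - (m + 1)) (by omega)
    have e : n - s + (j - (m + 1)) = j := by omega
    rw [e] at this
    omega

/-- Main theorem. -/
theorem result :
    -- (1) after the first zero, all zeros `n` have `n * q_p(n)` odd
    (∀ p, p.Prime → ∀ n, 2 < n → a p n = 0 → Odd (n * q p n)) ∧
    -- (2) zeros reached from the value 1 have `n * q_p(n)` coprime to 6
    (∀ p, p.Prime → ∀ n, 2 < n → a p n = 0 → a p (n - 1) = 1 → Nat.Coprime (n * q p n) 6) ∧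
    -- (3) the run criterion
    (∀ p, p.Prime → ∀ n s, s < n →
      ((a p n = 0 ∧ Quiet p s n) ↔
        (a p (n - s) = s ∧ ∀ r, r.Prime → r ∣ n * q p n → s < r))) ∧
    -- (4) primality of `n`, and the number of prime factors of `q_p(n)`
    (∀ p, p.Prime → ∀ n s t, s < n → a p n = 0 → Quiet p s n →
      (2 ≤ n → n ≤ s ^ 2 → n.Prime) ∧
      (q p n < (s + 1) ^ (t + 1) → (q p n).primeFactorsList.length ≤ t)) ∧
    -- (5) p = 2 : both are prime
    (∀ n s, s < n → a 2 n = 0 → Quiet 2 s n → n + 2 ≤ s ^ 2 →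
      n.Prime ∧ q 2 n = n + 2 ∧ (n + 2).Prime) ∧
    -- (6) p = 3 : both are prime
    (∀ n s, s < n → a 3 n = 0 → Quiet 3 s n → n ≤ s ^ 2 → (n - s + 1) ^ 2 ≤ n →
      n.Prime ∧ q 3 n = n ^ 2 + 3 * n + 3 ∧ (q 3 n).Prime) ∧
    -- (7) the next zero after the zero `m` is at most `m + (m+1)^p`
    (∀ p, p.Prime → ∀ m, 1 ≤ m → a p m = 0 →
      (∀ n, NextZero p m n → n ≤ m + (m + 1) ^ p) ∧
      (NextZero p m (m + (m + 1) ^ p) → (m + (m + 1) ^ p).Prime) ∧
      ((m + (m + 1) ^ p).Prime → (q p (m + (m + 1) ^ p)).Prime →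
        NextZero p m (m + (m + 1) ^ p))) ∧
    -- (8) for p = 2, 3 it is equal to it iff both numbers are prime
    (∀ p, p = 2 ∨ p = 3 → ∀ m, 1 ≤ m → a p m = 0 →
      (NextZero p m (m + (m + 1) ^ p) ↔
        (m + (m + 1) ^ p).Prime ∧ (q p (m + (m + 1) ^ p)).Prime)) := by
  have hP : ∀ p, p.Prime → ∀ n s, s < n → a p n = 0 → Quiet p s n →
      ∀ r, r.Prime → r ∣ n * q p n → s < r := fun p hp n s hs hz hq =>
    ((main_iff p hp.two_le n s hs).1 ⟨hz, hq⟩).2
  have h5 : ∀ n s, s < n → (∀ r, r.Prime → r ∣ n * q 2 n → s < r) → n + 2 ≤ s ^ 2 →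
      n.Prime ∧ q 2 n = n + 2 ∧ (n + 2).Prime := by
    intro n s hs H hle
    have hn2 : 2 ≤ n := by
      rcases Nat.lt_or_ge n 2 with h | h
      · have : s = 0 := by omega
        subst this; simp at hle
      · exact h
    have hq2 := q_two n (by omega)
    refine ⟨prime_of_sq _ n s hn2 (Dvd.intro _ rfl) H (by omega), hq2, ?_⟩
    have := prime_of_sq _ (q 2 n) s (by omega) (Dvd.intro_left _ rfl) H (by omega)
    rwa [hq2] at this
  have h6 : ∀ n s, s < n → (∀ r, r.Prime → r ∣ n * q 3 n → s < r) → n ≤ s ^ 2 →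
      (n - s + 1) ^ 2 ≤ n → n.Prime ∧ q 3 n = n ^ 2 + 3 * n + 3 ∧ (q 3 n).Prime := by
    intro n s hs H hle hle2
    have hn2 : 2 ≤ n := by
      have : 2 ≤ n - s + 1 := by omega
      nlinarith
    have hq3 := q_three n (by omega)
    refine ⟨prime_of_sq _ n s hn2 (Dvd.intro _ rfl) H hle, hq3, ?_⟩
    rw [hq3]
    apply cubic_prime n s hs hle2
    intro r hr hd
    refine H r hr (Dvd.dvd.mul_left ?_ n)
    rw [hq3]; exact hd
  have h7 : ∀ p, p.Prime → ∀ m, 1 ≤ m → a p m = 0 →
      (NextZero p m (m + (m + 1) ^ p) → (m + (m + 1) ^ p).Prime) := by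
    intro p hp m hm hz h
    have H := (next_iff p hp.two_le m hm hz).1 h
    have hpow : 2 ^ 2 ≤ (m + 1) ^ p := pow_ge p (m + 1) 2 hp.two_le (by omega)
    refine prime_of_sq _ (m + (m + 1) ^ p) ((m + 1) ^ p - 1) (by omega) (Dvd.intro _ rfl) H ?_
    have hle : (m + 1) ^ 2 ≤ (m + 1) ^ p := pow_ge p (m + 1) (m + 1) hp.two_le le_rfl
    obtain ⟨y, hy⟩ : ∃ y, (m + 1) ^ p = y + 1 := ⟨(m + 1) ^ p - 1, by omega⟩
    rw [hy] at hle ⊢
    rw [Nat.add_sub_cancel]
    nlinarith
  have h8 : ∀ p, p.Prime → ∀ m, 1 ≤ m → a p m = 0 →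
      ((m + (m + 1) ^ p).Prime → (q p (m + (m + 1) ^ p)).Prime →
        NextZero p m (m + (m + 1) ^ p)) := by
    intro p hp m hm hz h1 h2
    apply (next_iff p hp.two_le m hm hz).2
    intro r hr hd
    have hpow : 2 ^ 2 ≤ (m + 1) ^ p := pow_ge p (m + 1) 2 hp.two_le (by omega)
    rcases (Nat.Prime.dvd_mul hr).1 hd with h | h
    · have := (Nat.prime_dvd_prime_iff_eq hr h1).1 h
      omega
    · have h3 := (Nat.prime_dvd_prime_iff_eq hr h2).1 h
      set n := m + (m + 1) ^ p with hn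
      have h4 := mul_q p n (by omega)
      have h9 : (n + 1) ^ 2 ≤ (n + 1) ^ p := pow_ge p (n + 1) (n + 1) hp.two_le le_rfl
      have h10 : n * (n + 1) < n * q p n := by
        rw [h4]
        have : n * (n + 1) + (n + 1) = (n + 1) ^ 2 := by ring
        omega
      have h11 := lt_of_mul_lt_mul_left h10 (Nat.zero_le _)
      omega
  refine ⟨fun p hp n hn hz => zero_odd p hp.two_le n hn hz,
    fun p hp n hn hz h1 => zero_six p hp.two_le n hn hz h1,
    fun p hp n s hs => main_iff p hp.two_le n s hs, ?_, ?_, ?_, ?_, ?_⟩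
  · intro p hp n s t hs hz hq
    have H := hP p hp n s hs hz hq
    refine ⟨fun h2 hle => prime_of_sq _ n s h2 (Dvd.intro _ rfl) H hle, ?_⟩
    intro hlt
    have hn1 : 1 ≤ n := by omega
    have hq0 : q p n ≠ 0 := by
      intro h0
      have h4 := mul_q p n hn1
      rw [h0, Nat.mul_zero] at h4
      have := pow_ge p (n + 1) 2 hp.two_le (by omega)
      omega
    have h3 := factors_card (q p n) s hq0 (fun r hr hd => H r hr (Dvd.dvd.mul_left hd n))
    have h4 : (s + 1) ^ (q p n).primeFactorsList.length < (s + 1) ^ (t + 1) := lt_of_le_of_lt h3 hlt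
    have hs1 : 1 < s + 1 := by
      rcases Nat.eq_zero_or_pos s with h | h
      · exfalso
        subst h
        simp at hlt
        exact hq0 hlt
      · omega
    have := (Nat.pow_lt_pow_iff_right hs1).1 h4
    omega
  · intro n s hs hz hq hle
    exact h5 n s hs (hP 2 Nat.prime_two n s hs hz hq) hle
  · intro n s hs hz hq hle hle2
    exact h6 n s hs (hP 3 Nat.prime_three n s hs hz hq) hle hle2
  · intro p hp m hm hz
    refine ⟨?_, h7 p hp m hm hz, h8 p hp m hm hz⟩
    intro n hn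
    have := le_of_next p m n hm hz hn (n - (m + 1)) (by have := hn.1; omega)
    have e : m + 1 + (n - (m + 1)) = n := by have := hn.1; omega
    rw [e, hn.2.1] at this
    exact this
  · intro p hp m hm hz
    constructor
    · intro h
      have hpp : p.Prime := by
        rcases hp with rfl | rfl
        · exact Nat.prime_two
        · exact Nat.prime_three
      have H := (next_iff p hpp.two_le m hm hz).1 h
      refine ⟨h7 p hpp m hm hz h, ?_⟩
      rcases hp with rfl | rfl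
      · have hpow : 2 ^ 2 ≤ (m + 1) ^ 2 := pow_ge 2 (m + 1) 2 le_rfl (by omega)
        have := h5 (m + (m + 1) ^ 2) ((m + 1) ^ 2 - 1) (by omega) H (by
          obtain ⟨y, hy⟩ : ∃ y, (m + 1) ^ 2 = y + 1 := ⟨(m + 1) ^ 2 - 1, by omega⟩
          rw [hy, Nat.add_sub_cancel]
          nlinarith)
        rw [this.2.1]; exact this.2.2
      · have hpow : 2 ^ 2 ≤ (m + 1) ^ 3 := pow_ge 3 (m + 1) 2 (by norm_num) (by omega)
        have hle : (m + 1) ^ 2 ≤ (m + 1) ^ 3 := pow_ge 3 (m + 1) (m + 1) (by norm_num) le_rfl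
        have := h6 (m + (m + 1) ^ 3) ((m + 1) ^ 3 - 1) (by omega) H (by
          obtain ⟨y, hy⟩ : ∃ y, (m + 1) ^ 3 = y + 1 := ⟨(m + 1) ^ 3 - 1, by omega⟩
          rw [hy] at hle ⊢
          rw [Nat.add_sub_cancel]
          nlinarith) (by
          have e : m + (m + 1) ^ 3 - ((m + 1) ^ 3 - 1) + 1 = m + 2 := by omega
          rw [e]
          nlinarith)
        exact this.2.2
    · rintro ⟨h1, h2⟩
      have hpp : p.Prime := by
        rcases hp with rfl | rfl
        · exact Nat.prime_two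
        · exact Nat.prime_three
      exact h8 p hpp m hm hz h1 h2

end Pool.Agent.Results.MP_e7655a_nt.ZerosAfterRuns
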